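import Pool.Agent.Lib.MP_ca0fc2_an.Mg.G072
import Pool.Agent.Lib.MP_ca0fc2_an.SPDefs

/-! Strictly pseudoconvex domains have support functions: the final form. -/

set_option autoImplicit false

open Metric Set MeasureTheory Filter Topology
open scoped ContDiff

namespace Pool.Agent.MPca0fc2.LV

open Pool.Agent.MPca0fc2.FD (Ec ee)
open Pool.Agent.Lib.MP_ca0fc2_an (leviForm IsStrictlyPseudoconvex SupportData dirDeriv leviHessian
  StrictlyPscAt IsStrictlyPscDomain)

variable {n : ℕ}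

theorem S5_second {ρ : Ec n → ℝ} {z : Ec n} (h : ContDiffAt ℝ 2 ρ z) (X : Ec n) :
    dirDeriv (fun y => dirDeriv ρ y X) z X = fderiv ℝ (fderiv ℝ ρ) z X X := by
  have h1 : DifferentiableAt ℝ (fderiv ℝ ρ) z :=
    (h.fderiv_right (m := 1) (by norm_num)).differentiableAt (by norm_num)
  unfold dirDeriv
  rw [fderiv_clm_apply h1 (differentiableAt_const X)]
  simp

theorem S5_levi {ρ : Ec n → ℝ} {z : Ec n} (h : ContDiffAt ℝ 2 ρ z) (X : Ec n) :
    leviHessian ρ z X = leviForm ρ z X := by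
  unfold leviHessian leviForm
  rw [S5_second h X, S5_second h (Complex.I • X)]

theorem S5_domain {D : Set (Ec n)} (hD : IsStrictlyPscDomain D) : IsStrictlyPseudoconvex D := by
  obtain ⟨hb, W, ρ, hW, hDW, hρ, hD', hz⟩ := hD
  refine ⟨hb, W, ρ, hW, hDW, hρ, hD', fun z hzf => ?_⟩
  obtain ⟨⟨X, hX⟩, h2⟩ := hz z hzf
  have hc : ContDiffAt ℝ 2 ρ z :=
    (hρ.contDiffAt (hW.mem_nhds (hDW (frontier_subset_closure hzf)))).of_le (by
      exact WithTop.coe_le_coe.2 le_top)
  refine ⟨fun h0 => hX ?_, fun X hX h3 h4 => ?_⟩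
  · unfold dirDeriv
    rw [h0]
    rfl
  · have := h2 X hX h3 h4
    rwa [S5_levi hc X] at this

/-- Every strictly pseudoconvex domain with smooth boundary has support data. -/
theorem support_of_domain {D : Set (Ec n)} (hD : IsStrictlyPscDomain D) :
    ∃ (U : Set (Ec n)) (ρ : Ec n → ℝ) (h : Ec n → Ec n → Fin n → ℂ) (c : ℝ),
      SupportData D U ρ h c ∧ ContDiffOn ℝ ∞ ρ U :=
  support_of (S5_domain hD)

end Pool.Agent.MPca0fc2.LV
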