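import Pool.Agent.Lib.MP_ca0fc2_an.Mg.G071

/-! Peak functions. -/

set_option autoImplicit false

open Metric Set MeasureTheory Filter Topology
open scoped ContDiff

namespace Pool.Agent.MPca0fc2.LV

open Pool.Agent.MPca0fc2.FD (Ec ee)
open Pool.Agent.Lib.MP_ca0fc2_an (leviForm)

variable {n : ℕ}

private theorem P2c_cond {D U : Set (Ec n)} {ρ : Ec n → ℝ} {p : Ec n}
    {W : Set (Ec n)} {r b C : ℝ} {F G₁ G₂ : Ec n → ℂ} (hk : PK D U ρ p W r b C F G₁ G₂)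
    (P : Ec n → ℂ)
    (h1 : ∀ z ∈ closure D, z ∈ closedBall p (3 * r / 4) → z ≠ p →
      0 < ((F z)⁻¹ + P z - G₁ z).re)
    (h2 : ∀ z ∈ closure D, z ∉ ball p (3 * r / 4) → 0 < (P z - G₂ z).re) :
    (∀ z ∈ closure D, z ∈ ball p r → z ≠ p → 0 < ((F z)⁻¹ + P z - G₁ z).re) ∧
      (∀ z ∈ closure D, z ∉ closedBall p (r / 2) → 0 < (P z - G₂ z).re) := by
  have hr := hk.r0
  constructor
  · intro z hz hzr hzp
    by_cases h3 : z ∈ closedBall p (3 * r / 4)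
    · exact h1 z hz h3 hzp
    · have h4 : z ∉ ball p (3 * r / 4) := fun h5 => h3 (ball_subset_closedBall h5)
      have h5 : z ∉ closedBall p (r / 2) := by
        intro h6
        rw [mem_closedBall] at h3 h6
        exact h3 (by linarith)
      have h6 := hk.eq z ⟨hk.DW hz, hzr⟩ h5
      have h7 : (F z)⁻¹ + P z - G₁ z = P z - G₂ z := by rw [h6]; ring
      rw [h7]
      exact h2 z hz h4
  · intro z hz h5
    by_cases h3 : z ∈ ball p (3 * r / 4)
    · have hzr : z ∈ ball p r := by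
        rw [mem_ball] at h3 ⊢
        linarith
      have hzp : z ≠ p := by
        rintro rfl
        exact h5 (mem_closedBall_self (by linarith))
      have h6 := hk.eq z ⟨hk.DW hz, hzr⟩ h5
      have h7 : P z - G₂ z = (F z)⁻¹ + P z - G₁ z := by rw [h6]; ring
      rw [h7]
      exact h1 z hz (ball_subset_closedBall h3) hzp
    · exact h2 z hz h3

private theorem P2c_inv {D U : Set (Ec n)} {ρ : Ec n → ℝ} {c : ℝ} (h : DS D U ρ c) {p : Ec n}
    {W : Set (Ec n)} {r b C : ℝ} {F G₁ G₂ : Ec n → ℂ} (hk : PK D U ρ p W r b C F G₁ G₂)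
    {z : Ec n} (hz : z ∈ closure D) (hzr : z ∈ ball p r) (hzp : z ≠ p) :
    b / C ^ 2 ≤ ((F z)⁻¹).re := by
  have hρz : ρ z ≤ 0 := by
    rw [ds_closure h] at hz
    exact hz.2
  have h3 := hk.Fre z hzr
  have h4 := hk.Fle z hzr
  have h5 : 0 < ‖z - p‖ := norm_pos_iff.mpr (sub_ne_zero.mpr hzp)
  have h6 : 0 < b * ‖z - p‖ ^ 2 := mul_pos hk.b0 (pow_pos h5 2)
  have h7 : b * ‖z - p‖ ^ 2 ≤ (F z).re := by linarith
  have h8 : 0 < ‖F z‖ := by
    refine norm_pos_iff.mpr fun h0 => ?_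
    rw [h0, Complex.zero_re] at h7
    linarith
  have h9 : ‖F z‖ ^ 2 ≤ (C * ‖z - p‖) ^ 2 := pow_le_pow_left₀ (norm_nonneg _) h4 2
  rw [Complex.inv_re, Complex.normSq_eq_norm_sq, div_le_div_iff₀ (pow_pos hk.C0 2) (pow_pos h8 2)]
  have h10 : b * ‖F z‖ ^ 2 ≤ b * (C * ‖z - p‖) ^ 2 := mul_le_mul_of_nonneg_left h9 hk.b0.le
  have h11 : b * ‖z - p‖ ^ 2 * C ^ 2 ≤ (F z).re * C ^ 2 :=
    mul_le_mul_of_nonneg_right h7 (sq_nonneg _)
  nlinarith [h10, h11]

/-- Peak functions.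
PROOF. `pk_exists`. First step: `pk_build` with `V = univ`, `P = M + 1`, where `M` bounds `|G₁|` on the compact set
`closure D ∩ closedBall p (3 r / 4)` and `|G₂|` on `closure D \ ball p (3 r / 4)` (compact, in `W \ closedBall p (r / 2)`). `h1`: for
`z ∈ closure D ∩ ball p r`, `Re (F z)⁻¹ > 0`; if `‖z - p‖ ≤ 3 r / 4` then `Re (M + 1 - G₁) ≥ 1`; otherwise `(F z)⁻¹ - G₁ z = -G₂ z`. `h2`: if
`‖z - p‖ ≥ 3 r / 4` clear; otherwise `-G₂ = F⁻¹ - G₁`. We get `g₁` on `W₁`, with `Re g₁ > 0` on `closure D \ {p}`, `g₁ p = 0`. Second step: `P = G₁ p + K g₁` on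
`W₁`. Near `p`: on `closure D ∩ ball p r`: `Re (F z)⁻¹ = Re F / |F|² ≥ b / C²` (`Fle`, `Fre`, `ρ ≤ 0`), and `|G₁ p - G₁ z| < b / C²` for `‖z - p‖ < r₁`
(continuity), `Re (K g₁) ≥ 0`. For `‖z - p‖ ≥ r₁` `Re g₁ ≥ m > 0` (compactness), `K m ≥ 2 M + 1 + |G₁ p|`. This gives `h1`, `h2` (as in the first
step). `pk_build` gives `g` on `W'`. Near `p`, `P - G₁ = G₁ p - G₁ z + K g₁ z = O(‖z - p‖)` (holomorphic functions are Lipschitz near `p`), so
`g z = F z / (1 + (P - G₁) F) = F z + O(‖z - p‖³)`, because `|F| ≤ C ‖z - p‖`; so `Re g + ρ ≥ (b / 2) ‖z - p‖²` near `p`. -/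
theorem peak {D U : Set (Ec n)} {ρ : Ec n → ℝ} {c : ℝ} (h : DS D U ρ c) {p : Ec n} (hp : p ∈ U)
    (hp0 : ρ p = 0) : ∃ (W : Set (Ec n)) (g : Ec n → ℂ) (r b : ℝ), IsOpen W ∧ closure D ⊆ W ∧ W ⊆ U ∧
      DifferentiableOn ℂ g W ∧ g p = 0 ∧ (∀ z ∈ closure D, z ≠ p → 0 < (g z).re) ∧ 0 < r ∧ 0 < b ∧
      ball p r ⊆ W ∧ ∀ z ∈ ball p r, b * ‖z - p‖ ^ 2 ≤ (g z).re + ρ z := by
  obtain ⟨W, r, b, C, F, G₁, G₂, hk⟩ := pk_exists h hp hp0
  have hr := hk.r0
  have hb := hk.b0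
  have hC := hk.C0
  have hKc : IsCompact (closure D) := by
    rw [ds_closure h]
    exact h.cpt
  have hpK : p ∈ closure D := by
    rw [ds_closure h]
    exact ⟨hp, hp0.le⟩
  have hpW : p ∈ W := hk.DW hpK
  have hbC : 0 < b / C ^ 2 := div_pos hb (pow_pos hC 2)
  have hFp : F p = 0 := by
    have h3 := hk.Fle p (mem_ball_self hk.r0)
    rw [sub_self, norm_zero, mul_zero] at h3
    exact norm_le_zero_iff.mp h3
  -- bounds of the two functions
  obtain ⟨M₁, hM₁⟩ : ∃ M₁ : ℝ, ∀ z ∈ closure D ∩ closedBall p (3 * r / 4), ‖G₁ z‖ ≤ M₁ := by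
    refine (hKc.inter_right isClosed_closedBall).exists_bound_of_continuousOn
      (hk.G₁d.continuousOn.mono ?_)
    rintro z ⟨hz1, hz2⟩
    refine ⟨hk.DW hz1, ?_⟩
    rw [mem_closedBall] at hz2
    rw [mem_ball]
    linarith
  obtain ⟨M₂, hM₂⟩ : ∃ M₂ : ℝ, ∀ z ∈ closure D \ ball p (3 * r / 4), ‖G₂ z‖ ≤ M₂ := by
    refine (hKc.diff isOpen_ball).exists_bound_of_continuousOn
      (hk.G₂d.continuousOn.mono ?_)
    rintro z ⟨hz1, hz2⟩
    refine ⟨hk.DW hz1, fun hz3 => hz2 ?_⟩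
    rw [mem_closedBall] at hz3
    rw [mem_ball]
    linarith
  set M : ℝ := max M₁ M₂ with hM
  have hG1M : ∀ z ∈ closure D, z ∈ closedBall p (3 * r / 4) → ‖G₁ z‖ ≤ M :=
    fun z hz hz2 => (hM₁ z ⟨hz, hz2⟩).trans (le_max_left _ _)
  have hG2M : ∀ z ∈ closure D, z ∉ ball p (3 * r / 4) → ‖G₂ z‖ ≤ M :=
    fun z hz hz2 => (hM₂ z ⟨hz, hz2⟩).trans (le_max_right _ _)
  have hballr : ∀ z, z ∈ closedBall p (3 * r / 4) → z ∈ ball p r := by
    intro z hz
    rw [mem_closedBall] at hz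
    rw [mem_ball]
    linarith
  -- the first step
  obtain ⟨h11, h12⟩ := P2c_cond hk (fun _ => ((M + 1 : ℝ) : ℂ)) (by
      intro z hz hz2 hzp
      have h3 := P2c_inv h hk hz (hballr z hz2) hzp
      have h4 := (abs_le.mp ((Complex.abs_re_le_norm _).trans (hG1M z hz hz2))).2
      rw [Complex.sub_re, Complex.add_re, Complex.ofReal_re]
      linarith) (by
      intro z hz hz2
      have h4 := (abs_le.mp ((Complex.abs_re_le_norm _).trans (hG2M z hz hz2))).2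
      rw [Complex.sub_re, Complex.ofReal_re]
      linarith)
  obtain ⟨W₁, g₁, hW₁, hDW₁, -, hg₁d, hg₁p, hg₁, -⟩ := pk_build h hp hp0 hk isOpen_univ
    (subset_univ _) (differentiableOn_const ((M + 1 : ℝ) : ℂ)) h11 h12
  have hg₁0 : ∀ z ∈ closure D, 0 ≤ (g₁ z).re := by
    intro z hz
    by_cases hzp : z = p
    · rw [hzp, hg₁p, Complex.zero_re]
    · exact (hg₁ z hz hzp).le
  -- the radius `r₁`
  have hG₁p : DifferentiableAt ℂ G₁ p :=
    hk.G₁d.differentiableAt ((hk.opn.inter isOpen_ball).mem_nhds ⟨hpW, mem_ball_self hr⟩)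
  obtain ⟨r₁, hr₁, hG₁r⟩ : ∃ r₁ > 0, ∀ z, dist z p < r₁ → ‖G₁ z - G₁ p‖ < b / C ^ 2 := by
    have h3 := Metric.continuousAt_iff.mp hG₁p.continuousAt (b / C ^ 2) hbC
    obtain ⟨r₁, hr₁, h4⟩ := h3
    refine ⟨r₁, hr₁, fun z hz => ?_⟩
    rw [← dist_eq_norm]
    exact h4 hz
  -- the minimum of the real part of `g₁` away from `p`
  obtain ⟨m, hm, hm1⟩ : ∃ m : ℝ, 0 < m ∧
      ∀ z ∈ closure D \ ball p (min r₁ (3 * r / 4)), m ≤ (g₁ z).re := by
    refine (hKc.diff isOpen_ball).exists_forall_le' ?_ ?_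
    · exact (Complex.continuous_re.comp_continuousOn hg₁d.continuousOn).mono
        fun z hz => hDW₁ hz.1
    · rintro z ⟨hz1, hz2⟩
      refine hg₁ z hz1 ?_
      rintro rfl
      exact hz2 (mem_ball_self (lt_min hr₁ (by linarith)))
  set K₀ : ℝ := (2 * |M| + 1 + ‖G₁ p‖) / m with hK₀
  have hK₀0 : 0 < K₀ := by
    have h3 := abs_nonneg M
    have h4 := norm_nonneg (G₁ p)
    rw [hK₀]
    exact div_pos (by linarith) hm
  have hK₀m : K₀ * m = 2 * |M| + 1 + ‖G₁ p‖ := by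
    rw [hK₀]
    exact div_mul_cancel₀ _ hm.ne'
  have hPre : ∀ z, (G₁ p + (K₀ : ℂ) * g₁ z).re = (G₁ p).re + K₀ * (g₁ z).re := by
    intro z
    rw [Complex.add_re, Complex.re_ofReal_mul]
  have hfar : ∀ z ∈ closure D, z ∉ ball p (min r₁ (3 * r / 4)) →
      2 * |M| + 1 + ‖G₁ p‖ ≤ K₀ * (g₁ z).re := by
    intro z hz hz2
    rw [← hK₀m]
    exact mul_le_mul_of_nonneg_left (hm1 z ⟨hz, hz2⟩) hK₀0.le
  have hGp := abs_le.mp (Complex.abs_re_le_norm (G₁ p))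
  have hMabs := le_abs_self M
  have hMabs0 := abs_nonneg M
  -- the second step
  obtain ⟨h21, h22⟩ := P2c_cond hk (fun z => G₁ p + (K₀ : ℂ) * g₁ z) (by
      intro z hz hz2 hzp
      have h3 := P2c_inv h hk hz (hballr z hz2) hzp
      have h4 := (abs_le.mp ((Complex.abs_re_le_norm _).trans (hG1M z hz hz2))).2
      rw [Complex.sub_re, Complex.add_re, hPre]
      by_cases hz3 : z ∈ ball p (min r₁ (3 * r / 4))
      · have h5 : ‖G₁ z - G₁ p‖ < b / C ^ 2 := by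
          refine hG₁r z ?_
          rw [mem_ball] at hz3
          exact hz3.trans_le (min_le_left _ _)
        have h6 := (abs_le.mp (Complex.abs_re_le_norm (G₁ z - G₁ p))).2
        rw [Complex.sub_re] at h6
        have h7 : 0 ≤ K₀ * (g₁ z).re := mul_nonneg hK₀0.le (hg₁0 z hz)
        linarith
      · have h5 := hfar z hz hz3
        linarith [hGp.1]) (by
      intro z hz hz2
      have h4 := (abs_le.mp ((Complex.abs_re_le_norm _).trans (hG2M z hz hz2))).2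
      rw [Complex.sub_re, hPre]
      have h5 := hfar z hz (fun h6 => hz2 (ball_subset_ball (min_le_right _ _) h6))
      linarith [hGp.1])
  have hPd : DifferentiableOn ℂ (fun z => G₁ p + (K₀ : ℂ) * g₁ z) W₁ :=
    (differentiableOn_const _).fun_add ((differentiableOn_const _).fun_mul hg₁d)
  obtain ⟨W', g, hW', hDW', hW'W, hgd, hgp, hg, hgF⟩ := pk_build h hp hp0 hk hW₁ hDW₁ hPd h21 h22
  have hpW' : p ∈ W' := hDW' hpK
  -- the difference of `P` and `G₁` near `p`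
  have hQd : DifferentiableAt ℂ (fun z => G₁ p + (K₀ : ℂ) * g₁ z - G₁ z) p :=
    (hPd.differentiableAt (hW₁.mem_nhds (hDW₁ hpK))).fun_sub hG₁p
  obtain ⟨L, hL, hLz⟩ := hQd.isBigO_sub.exists_pos
  have hLz' := Asymptotics.isBigOWith_iff.mp hLz
  obtain ⟨δ, hδ, hδz⟩ := Metric.eventually_nhds_iff.mp hLz'
  obtain ⟨δ', hδ', hδW⟩ := Metric.isOpen_iff.mp hW' p hpW'
  -- the final radius
  have hpos1 : 0 < b / (4 * C ^ 2 * L) := by positivity
  set s : ℝ := min (min (min δ δ') (min r 1)) (min (1 / (2 * C * L)) (b / (4 * C ^ 2 * L)))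
    with hs
  have hs0 : 0 < s := lt_min (lt_min (lt_min hδ hδ') (lt_min hr one_pos))
    (lt_min (by positivity) hpos1)
  have hsδ : s ≤ δ := (min_le_left _ _).trans ((min_le_left _ _).trans (min_le_left _ _))
  have hsδ' : s ≤ δ' := (min_le_left _ _).trans ((min_le_left _ _).trans (min_le_right _ _))
  have hsr : s ≤ r := (min_le_left _ _).trans ((min_le_right _ _).trans (min_le_left _ _))
  have hs1 : s ≤ 1 := (min_le_left _ _).trans ((min_le_right _ _).trans (min_le_right _ _))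
  have hs2 : s ≤ 1 / (2 * C * L) := (min_le_right _ _).trans (min_le_left _ _)
  have hs3 : s ≤ b / (4 * C ^ 2 * L) := (min_le_right _ _).trans (min_le_right _ _)
  refine ⟨W', g, s, b / 2, hW', hDW', fun z hz => hk.WU (hW'W hz).1, hgd, hgp, hg, hs0,
    half_pos hb, (ball_subset_ball hsδ').trans hδW, ?_⟩
  intro z hz
  have hzr : z ∈ ball p r := ball_subset_ball hsr hz
  have hzW : z ∈ W' := hδW (ball_subset_ball hsδ' hz)
  obtain ⟨hne, hgz⟩ := hgF z ⟨hzW, hzr⟩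
  have hF1 := hk.Fre z hzr
  have hF2 := hk.Fle z hzr
  rw [mem_ball, dist_eq_norm] at hz
  have hQ : ‖G₁ p + (K₀ : ℂ) * g₁ z - G₁ z‖ ≤ L * ‖z - p‖ := by
    have h3 := hδz (show dist z p < δ by rw [dist_eq_norm]; exact hz.trans_le hsδ)
    have h4 : G₁ p + (K₀ : ℂ) * g₁ p - G₁ p = 0 := by rw [hg₁p]; ring
    rwa [h4, sub_zero] at h3
  set x : ℝ := ‖z - p‖ with hx
  have hx0 : 0 ≤ x := norm_nonneg _
  set Q : ℂ := G₁ p + (K₀ : ℂ) * g₁ z - G₁ z with hQdef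
  have hQF : ‖Q * F z‖ ≤ L * x * (C * x) := by
    rw [norm_mul]
    exact mul_le_mul hQ hF2 (norm_nonneg _) (by positivity)
  have hxs : x ≤ s := hz.le
  have hx1 : x ≤ 1 := hxs.trans hs1
  have hx2 : 2 * C * L * x ≤ 1 := by
    have h3 := hxs.trans hs2
    rw [le_div_iff₀ (by positivity)] at h3
    linarith
  have hx3 : 4 * C ^ 2 * L * x ≤ b := by
    have h3 := hxs.trans hs3
    rw [le_div_iff₀ (by positivity)] at h3
    linarith
  have hQF2 : ‖Q * F z‖ ≤ 1 / 2 := by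
    refine hQF.trans ?_
    have h3 : L * x * (C * x) = (C * L * x) * x := by ring
    rw [h3]
    have h4 : C * L * x ≤ 1 / 2 := by linarith
    have h5 : 0 ≤ C * L * x := by positivity
    nlinarith
  have hden : 1 / 2 ≤ ‖1 + Q * F z‖ := by
    have h3 := norm_sub_norm_le (1 : ℂ) (-(Q * F z))
    rw [norm_neg, norm_one, sub_neg_eq_add] at h3
    linarith
  have hdiff : ‖g z - F z‖ ≤ b / 2 * x ^ 2 := by
    have h3 : g z - F z = -(F z * (Q * F z)) / (1 + Q * F z) := by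
      rw [hgz, eq_div_iff hne, sub_mul, div_mul_cancel₀ _ hne]
      ring
    rw [h3, norm_div, norm_neg, norm_mul, div_le_iff₀ (by linarith)]
    have h4 : ‖F z‖ * ‖Q * F z‖ ≤ (C * x) * (L * x * (C * x)) :=
      mul_le_mul hF2 hQF (norm_nonneg _) (by positivity)
    have h5 : (C * x) * (L * x * (C * x)) = (4 * C ^ 2 * L * x) * x ^ 2 / 4 := by ring
    have h6 : (4 * C ^ 2 * L * x) * x ^ 2 ≤ b * x ^ 2 :=
      mul_le_mul_of_nonneg_right hx3 (sq_nonneg _)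
    have h7 : b / 2 * x ^ 2 * (1 / 2) ≤ b / 2 * x ^ 2 * ‖1 + Q * F z‖ :=
      mul_le_mul_of_nonneg_left hden (by positivity)
    nlinarith
  have hre := (abs_le.mp (Complex.abs_re_le_norm (g z - F z))).1
  rw [Complex.sub_re] at hre
  linarith

end Pool.Agent.MPca0fc2.LV
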